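import Pool.Agent.H974R2.RSW2
import Pool.Agent.H342R2.Per.Upper

/-!
# Project LT (MP_6bd702_pr), piece SEP: deterministic lemmas
-/

set_option autoImplicit false

namespace Pool.Agent.W2helper95.LT78

open H974 Finset H342P

/-- the closed edges, in the lattice of faces -/
noncomputable abbrev dcl (n : ℕ) (F : Finset Edg) : Finset Edg := dmp (RE 0 n 0 n \ F)

lemma dreach_of_dcl {n : ℕ} {F S : Finset Edg} {u v : Vtx}
    (h : Reach (↑(dcl n F) ∩ ↑(dmp S)) u v) : DReach ((↑F : Set Edg)ᶜ ∩ ↑S) u v := by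
  rw [← reach_dl]
  refine h.mono ?_
  rw [coe_dmp, coe_dmp, ← Set.image_inter dl.injective]
  refine Set.image_mono ?_
  rintro e ⟨h1, h2⟩
  refine ⟨?_, h2⟩
  simp only [coe_sdiff, Set.mem_sdiff, mem_coe] at h1
  exact h1.2

/-- a closed dual top-bottom crossing excludes an open left-right crossing -/
lemma block_LR {n : ℕ} {F : Finset Edg} {a b c d : ℤ} (hcd : c ≤ d) (h1 : LRc a (b + 1) (c + 1) d F)
    (h2 : TBc a b c d (dcl n F)) : False := by
  obtain ⟨y, y', k1, k2, k3⟩ := h1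
  obtain ⟨x, x', l1, l2, l3⟩ := h2
  have e : TBE a b c d = dmp (LRE a (b + 1) (c + 1) d) := by
    rw [dmp_LRE]; congr 1 <;> ring
  rw [e] at l3
  have h3 := dreach_of_dcl l3
  have h4 : c = (c + 1) - 1 := by ring
  rw [h4] at h3
  rw [show c + 1 - 1 + 1 = c + 1 by ring] at h3
  exact no_both (a := a) (b := b + 1) (c := c + 1) (d := d) (by omega) k2 ⟨l1.1, by omega⟩ k3 h3

/-- a closed dual left-right crossing excludes an open top-bottom crossing -/
lemma block_TB {n : ℕ} {F : Finset Edg} {a b c d : ℤ} (hab : a + 1 ≤ b) (h1 : TBc (a + 1) b c (d + 1) F)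
    (h2 : LRc a b c d (dcl n F)) : False := by
  obtain ⟨x, x', k1, k2, k3⟩ := h1
  obtain ⟨y, y', l1, l2, l3⟩ := h2
  have e : LRE a b c d = dmp (TBE (a + 1) b c (d + 1)) := by
    rw [dmp_TBE]; congr 1 <;> ring
  rw [e] at l3
  have h3 := dreach_of_dcl l3
  have h5 : DReach ((↑F : Set Edg)ᶜ ∩ ↑(TBE (a + 1) b c (d + 1))) ((a + 1) - 1, y) (b, y') := by
    rw [show (a + 1) - 1 = a by ring]; exact h3
  exact no_both_TB hab k2 ⟨l1.1, by omega⟩ k3 h5

/-- Gluing of two vertical crossings through a horizontal one. -/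
lemma glue_TB {F : Finset Edg} {a b c c' d d' : ℤ} (h1 : c ≤ c') (h2 : c' < d) (h3 : d ≤ d')
    (hab : a < b) (hA : TBc a b c d F) (hB : TBc a b c' d' F) (hC : LRc a b c' d F) :
    TBc a b c d' F := by
  rw [← LRc_tps_iff] at hA hB ⊢
  rw [← TBc_tps_iff] at hC
  exact glue h1 h2 h3 hab hA hB hC

lemma inR_of_adj {n : ℕ} {F : Finset Edg} (hF : F ⊆ RE 0 n 0 n) {u v : Vtx} (h : Adj (↑F) u v) :
    inR 0 n 0 n u := by
  obtain ⟨⟨x, y, _ | _⟩, he, hc⟩ := h
  · have := hF he
    rw [mem_RE_false] at this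
    simp only [src_mk, tgt_false] at hc
    unfold inR
    rcases hc with ⟨h1, -⟩ | ⟨-, h1⟩ <;> rw [← h1] <;> simp only <;> omega
  · have := hF he
    rw [mem_RE_true] at this
    simp only [src_mk, tgt_true] at hc
    unfold inR
    rcases hc with ⟨h1, -⟩ | ⟨-, h1⟩ <;> rw [← h1] <;> simp only <;> omega

lemma inR_of_reach {n : ℕ} {F : Finset Edg} (hF : F ⊆ RE 0 n 0 n) {u v : Vtx} (h : Reach (↑F) u v)
    (hne : u ≠ v) : inR 0 n 0 n u := by
  rcases Relation.ReflTransGen.cases_head h with h1 | ⟨w, h1, -⟩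
  · exact absurd h1 hne
  · exact inR_of_adj hF h1

/-- a path from low to high crosses a horizontal strip -/
lemma TBc_of_path {n : ℕ} {F : Finset Edg} (hF : F ⊆ RE 0 n 0 n) {c d : ℤ} (hcd : c < d) {u v : Vtx}
    (h : Reach (↑F) u v) (hu : u.2 ≤ c) (hv : d ≤ v.2) : TBc 0 n c d F := by
  obtain ⟨y1, y2, h1, h2, h3, -⟩ := sub_TB (a := 0) (b := n) hcd
    (by intro x y he _ _; have := hF he; rw [mem_RE_false] at this; omega)
    (by intro x y he _ _; have := hF he; rw [mem_RE_true] at this; omega) h hu hv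
  exact ⟨y1, y2, h1, h2, h3⟩

lemma LRc_of_path {n : ℕ} {F : Finset Edg} (hF : F ⊆ RE 0 n 0 n) {c d : ℤ} (hcd : c < d) {u v : Vtx}
    (h : Reach (↑F) u v) (hu : u.1 ≤ c) (hv : d ≤ v.1) : LRc c d 0 n F := by
  obtain ⟨y1, y2, h1, h2, h3, -⟩ := sub_LR (c := 0) (d := n) hcd
    (by intro x y he _ _; have := hF he; rw [mem_RE_true] at this; omega)
    (by intro x y he _ _; have := hF he; rw [mem_RE_false] at this; omega) h hu hv
  exact ⟨y1, y2, h1, h2, h3⟩

lemma TBc_of_reach' {F : Finset Edg} {a b c c' d : ℤ} {u v : Vtx}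
    (h : Reach (↑F ∩ ↑(RE a b c' d)) u v) (hu : u.2 ≤ c) (hv : d ≤ v.2) (hcd : c < d) : TBc a b c d F := by
  obtain ⟨y1, y2, h1, h2, h3, -⟩ := sub_TB (a := a) (b := b) hcd
    (by rintro x y ⟨-, h⟩ _ _; simp only [mem_coe, mem_RE_false] at h; omega)
    (by rintro x y ⟨-, h⟩ _ _; simp only [mem_coe, mem_RE_true] at h; omega) h hu hv
  refine ⟨y1, y2, h1, h2, h3.mono ?_⟩
  rintro e ⟨⟨h4, -⟩, h5⟩
  exact ⟨h4, h5⟩

lemma LRc_of_reach' {F : Finset Edg} {a a' b c d : ℤ} {u v : Vtx}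
    (h : Reach (↑F ∩ ↑(RE a' b c d)) u v) (hu : u.1 ≤ a) (hv : b ≤ v.1) (hab : a < b) : LRc a b c d F := by
  obtain ⟨y1, y2, h1, h2, h3, -⟩ := sub_LR (c := c) (d := d) hab
    (by rintro x y ⟨-, h⟩ _ _; simp only [mem_coe, mem_RE_true] at h; omega)
    (by rintro x y ⟨-, h⟩ _ _; simp only [mem_coe, mem_RE_false] at h; omega) h hu hv
  refine ⟨y1, y2, h1, h2, h3.mono ?_⟩
  rintro e ⟨⟨h4, -⟩, h5⟩
  exact ⟨h4, h5⟩

/-- the edges of the cluster of `v` -/
def clE (F : Finset Edg) (v : Vtx) : Set Edg := {e | e ∈ F ∧ Reach (↑F) v (src e) ∧ Reach (↑F) v (tgt e)}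

lemma reach_clE {F : Finset Edg} {v u w : Vtx} (hu : Reach (↑F) v u) (h : Reach (↑F) u w) :
    Reach (clE F v) u w := by
  induction h with
  | refl => exact Reach.refl _ _
  | @tail x y hx hs ih =>
    refine ih.trans (Adj.reach ?_)
    obtain ⟨e, he, hc⟩ := hs
    have hvx : Reach (↑F) v x := hu.trans hx
    have hvy : Reach (↑F) v y := hvx.trans (Adj.reach ⟨e, he, hc⟩)
    refine ⟨e, ⟨he, ?_, ?_⟩, hc⟩
    · rcases hc with ⟨h1, h2⟩ | ⟨h1, h2⟩ <;> rw [h1] <;> assumption
    · rcases hc with ⟨h1, h2⟩ | ⟨h1, h2⟩ <;> rw [h2] <;> assumption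

/-- a cluster with a path across the vertical strip `[c, d]`, but without a crossing in its upper
part, has a vertex in the lower part -/
lemma exists_low {n : ℕ} {F : Finset Edg} (hF : F ⊆ RE 0 n 0 n) {c d h : ℤ} (hcd : c < d) {v u w : Vtx}
    (hu' : Reach (↑F) v u) (hw' : Reach (↑F) v w) (hu : u.1 ≤ c) (hw : d ≤ w.1)
    (hno : ¬ LRc c d (h + 1) n F) : ∃ z, Reach (↑F) v z ∧ c ≤ z.1 ∧ z.1 ≤ d ∧ z.2 ≤ h := by
  by_contra hcon
  push Not at hcon
  have hr : Reach (clE F v) u w := reach_clE hu' (hu'.symm.trans hw')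
  obtain ⟨y1, y2, h1, h2, h3, -⟩ := sub_LR (c := h + 1) (d := n) hcd
    (by
      rintro x y ⟨he, hs, ht⟩ h4 h5
      have h6 := hF he
      rw [mem_RE_true] at h6
      simp only [src_mk] at hs
      have := hcon _ hs h4 h5.le
      simp only at this
      omega)
    (by
      rintro x y ⟨he, hs, ht⟩ h4 h5
      have h6 := hF he
      rw [mem_RE_false] at h6
      simp only [src_mk] at hs
      have := hcon _ hs h4.le h5.le
      simp only at this
      omega) hr hu hw
  exact hno ⟨y1, y2, h1, h2, h3.mono (Set.inter_subset_inter_left _ fun e he => he.1)⟩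

/-- a cluster which meets the lower part of a tube with closed boundary is inside the tube -/
lemma inside {n : ℕ} {F : Finset Edg} (hF : F ⊆ RE 0 n 0 n) {X a Y X0 : ℤ} (hX0 : 0 ≤ X0) (hX : X0 ≤ X)
    (ha : 0 ≤ a) (haY : a ≤ Y)
    (hXn : X + 1 ≤ n) (hYn : Y + 1 ≤ n)
    (b4 : ¬ TBc 0 X a (Y + 1) F) (b5 : ¬ LRc X0 (X + 1) 0 Y F) {z : Vtx}
    (hz1 : 0 ≤ z.1) (hz2 : z.1 ≤ X0) (hz3 : 0 ≤ z.2) (hz4 : z.2 ≤ a) :
    ∀ w, Reach (↑F) z w → inR 0 X 0 Y w := by
  have key : ∀ w, Reach (↑F) z w → inR 0 X 0 Y w ∧ Reach (↑F ∩ ↑(RE 0 X 0 Y)) z w := by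
    intro w hw
    induction hw with
    | refl =>
      refine ⟨?_, Reach.refl _ _⟩
      unfold inR; omega
    | @tail x y hx hs ih =>
      obtain ⟨ih1, ih2⟩ := ih
      have hsy := hs
      obtain ⟨⟨x0, y0, bo⟩, he, hc⟩ := hs
      have hbox := inR_of_adj hF hsy.symm
      unfold inR at ih1 hbox
      have hmem := hF he
      by_cases hin : y.1 ≤ X ∧ y.2 ≤ Y
      · refine ⟨by unfold inR; omega, ih2.trans (Adj.reach ⟨(x0, y0, bo), ⟨he, ?_⟩, hc⟩)⟩
        cases bo
        · rw [mem_coe, mem_RE_false]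
          simp only [src_mk, tgt_false] at hc
          rcases hc with ⟨h3, h4⟩ | ⟨h3, h4⟩
          · rw [← h3] at ih1; rw [← h4] at hin hbox; simp only at ih1 hin hbox; omega
          · rw [← h4] at ih1; rw [← h3] at hin hbox; simp only at ih1 hin hbox; omega
        · rw [mem_coe, mem_RE_true]
          simp only [src_mk, tgt_true] at hc
          rcases hc with ⟨h3, h4⟩ | ⟨h3, h4⟩
          · rw [← h3] at ih1; rw [← h4] at hin hbox; simp only at ih1 hin hbox; omega
          · rw [← h4] at ih1; rw [← h3] at hin hbox; simp only at ih1 hin hbox; omega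
      · exfalso
        cases bo
        · -- a vertical edge: exit through the top
          simp only [src_mk, tgt_false] at hc
          rw [mem_RE_false] at hmem
          have hy2 : y.2 = Y + 1 ∧ (x0, y0) = x ∧ (x0, y0 + 1) = y := by
            rcases hc with ⟨h3, h4⟩ | ⟨h3, h4⟩
            · refine ⟨?_, h3, h4⟩
              rw [← h3] at ih1; rw [← h4] at hin; rw [← h4]
              simp only at ih1 hin ⊢; omega
            · exfalso
              rw [← h4] at ih1; rw [← h3] at hin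
              simp only at ih1 hin; omega
          apply b4
          refine TBc_of_reach' (c' := 0) (u := z) (v := y) ?_ hz4 (by omega) (by omega)
          refine (ih2.mono ?_).trans (Adj.reach ⟨(x0, y0, false), ⟨he, ?_⟩, Or.inl hy2.2⟩)
          · rintro ⟨p, q, _ | _⟩ ⟨h7, h8⟩
            · refine ⟨h7, ?_⟩
              simp only [mem_coe, mem_RE_false] at h8 ⊢; omega
            · refine ⟨h7, ?_⟩
              simp only [mem_coe, mem_RE_true] at h8 ⊢; omega
          · obtain ⟨h9, h10, h11⟩ := hy2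
            rw [← h10] at ih1; rw [← h11] at h9
            simp only [mem_coe, mem_RE_false] at ih1 h9 ⊢
            omega
        · simp only [src_mk, tgt_true] at hc
          rw [mem_RE_true] at hmem
          have hy2 : y.1 = X + 1 ∧ (x0, y0) = x ∧ (x0 + 1, y0) = y := by
            rcases hc with ⟨h3, h4⟩ | ⟨h3, h4⟩
            · refine ⟨?_, h3, h4⟩
              rw [← h3] at ih1; rw [← h4] at hin; rw [← h4]
              simp only at ih1 hin ⊢; omega
            · exfalso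
              rw [← h4] at ih1; rw [← h3] at hin
              simp only at ih1 hin; omega
          apply b5
          refine LRc_of_reach' (a' := 0) (u := z) (v := y) ?_ hz2 (by omega) (by omega)
          refine (ih2.mono ?_).trans (Adj.reach ⟨(x0, y0, true), ⟨he, ?_⟩, Or.inl hy2.2⟩)
          · rintro ⟨p, q, _ | _⟩ ⟨h7, h8⟩
            · refine ⟨h7, ?_⟩
              simp only [mem_coe, mem_RE_false] at h8 ⊢; omega
            · refine ⟨h7, ?_⟩
              simp only [mem_coe, mem_RE_true] at h8 ⊢; omega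
          · obtain ⟨h9, h10, h11⟩ := hy2
            rw [← h10] at ih1; rw [← h11] at h9
            simp only [mem_coe, mem_RE_true] at ih1 h9 ⊢
            omega
  exact fun w hw => (key w hw).1

end Pool.Agent.W2helper95.LT78
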