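import Pool.Agent.W2helper78.LT.Stm
import Pool.Agent.W2helper95.LT78.Det

/-!
# Project LT (MP_6bd702_pr), piece SEP
-/

set_option autoImplicit false

namespace Pool.Agent.W2helper95.LT78

open H974 Finset H342P W78LT

lemma tube_open {a : ℕ} (ha : 1 ≤ a) {F : Finset Edg} (k : ℕ) (h : ∀ i ≤ k, OA a i F) :
    LRc 0 (((k:ℤ) + 2) * a) 0 a F := by
  have ha' : (1:ℤ) ≤ a := by exact_mod_cast ha
  induction k with
  | zero =>
    have h1 := (h 0 le_rfl).1
    simpa using h1
  | succ k ih =>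
    have h1 := ih fun i hi => h i (by omega)
    have h2 := (h (k + 1) le_rfl).1
    have h3 := (h k (by omega)).2
    push_cast at h2 ⊢
    have e : ((k:ℤ) + 1 + 2) * a = ((k:ℤ) + 3) * a := by ring
    rw [e] at h2 ⊢
    have hk : (0:ℤ) ≤ k := Int.natCast_nonneg k
    exact glue (by positivity) (by nlinarith) (by nlinarith) (by omega) h1 h2 h3

lemma tube_closed {n a : ℕ} (ha : 1 ≤ a) {F : Finset Edg} (k : ℕ) (h : ∀ i ≤ k, UA n a i F) :
    LRc (-1) (((k:ℤ) + 2) * a) a (2 * a) (dc n F) := by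
  have ha' : (1:ℤ) ≤ a := by exact_mod_cast ha
  induction k with
  | zero =>
    have h1 := (h 0 le_rfl).1
    simpa using h1
  | succ k ih =>
    have h1 := ih fun i hi => h i (by omega)
    have h2 := (h (k + 1) le_rfl).1
    have h3 := (h k (by omega)).2
    push_cast at h2 ⊢
    have e : ((k:ℤ) + 1 + 2) * a = ((k:ℤ) + 3) * a := by ring
    rw [e] at h2 ⊢
    have hk : (0:ℤ) ≤ k := Int.natCast_nonneg k
    exact glue (by nlinarith) (by nlinarith) (by nlinarith) (by omega) h1 h2 h3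

theorem sep : St_SEP := by
  intro n a t F v hA hF hE hmax
  obtain ⟨ha, ht, hn⟩ := hA
  obtain ⟨hO, hD⟩ := hE
  have ha' : (1:ℤ) ≤ a := by exact_mod_cast ha
  have ht' : (5:ℤ) ≤ t := by exact_mod_cast ht
  obtain ⟨G, hG⟩ : ∃ G : ℤ, G = (t:ℤ) * a := ⟨_, rfl⟩
  have hGa : 5 * (a:ℤ) ≤ G := by rw [hG]; nlinarith
  have hnG : 16 * G + 3 * a + 1 ≤ n := by rw [hG]; exact_mod_cast hn
  rw [← hG]
  -- the open crossing of the tube
  have o1 : LRc 0 (16 * G) 0 a F := by
    have h := tube_open ha (16 * t - 2) (fun i hi => hO i (mem_range.mpr (by omega)))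
    have e : (((16 * t - 2 : ℕ) : ℤ) + 2) * a = 16 * G := by
      rw [hG, Nat.cast_sub (by omega)]; push_cast; ring
    rwa [e] at h
  have u1 : LRc (-1) (16 * G + 2 * a) a (2 * a) (dc n F) := by
    have h := tube_closed (n := n) ha (16 * t) (fun i hi => (hD i (mem_range.mpr (by omega))).1 (by omega))
    have e : (((16 * t : ℕ) : ℤ) + 2) * a = 16 * G + 2 * a := by rw [hG]; push_cast; ring
    rwa [e] at h
  have hNA := (hD (16 * t + 1) (mem_range.mpr (by omega))).2.1 rfl
  have hZA := (hD (16 * t + 2) (mem_range.mpr (by omega))).2.2 rfl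
  unfold NA at hNA
  unfold ZA at hZA
  push_cast at hNA hZA
  rw [← hG] at hNA hZA
  obtain ⟨n1, n2⟩ := hNA
  obtain ⟨z1, z2, z3, z4⟩ := hZA
  have v1 : TBc (10 * G) (11 * G) a n (dc n F) :=
    glue_TB (by omega) (by omega) (by omega) (by omega) n2 z2 z1
  -- the blocks
  have B1 : ¬ LRc (10 * G) (11 * G + 1) (a + 1) n F := fun h => block_LR (by omega) h v1
  have B2 : ∀ i : ℕ, 2 ≤ i → 10 * G * i + G + 1 ≤ n → ¬ LRc (10 * G * i) (10 * G * i + G + 1) 0 n F := by
    intro i hi h1 h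
    have h2 := z3 i hi h1
    have h3 : LRc (10 * G * i) ((10 * G * i + G) + 1) (-1 + 1) n F := by simpa using h
    exact block_LR (by omega) h3 h2
  have B3 : ∀ j : ℕ, 1 ≤ j → 10 * G * j + G + 1 ≤ n → ¬ TBc 0 n (10 * G * j) (10 * G * j + G + 1) F := by
    intro j hj h1 h
    have h2 := z4 j hj h1
    have h3 : TBc (-1 + 1) n (10 * G * j) ((10 * G * j + G) + 1) F := by simpa using h
    exact block_TB (by omega) h3 h2
  have B4 : ¬ TBc 0 (16 * G + 2 * a) a (2 * a + 1) F := by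
    intro h
    have h3 : TBc (-1 + 1) (16 * G + 2 * a) a (2 * a + 1) F := by simpa using h
    exact block_TB (by omega) h3 u1
  have B5 : ¬ LRc (16 * G + a) (16 * G + 2 * a + 1) 0 (2 * a) F := by
    intro h
    have h3 : LRc (16 * G + a) (16 * G + 2 * a + 1) (-1 + 1) (2 * a) F := by simpa using h
    exact block_LR (by omega) h3 n1
  -- the cluster
  obtain ⟨p, q, hp, hq, hpq⟩ := hmax
  have hlarge : 256 * G ^ 2 ≤ dsq p q := by
    obtain ⟨y, y', h1, h2, h3⟩ := o1
    have h4 : Reach (↑F : Set Edg) (0, y) (16 * G, y') := h3.mono Set.inter_subset_left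
    have h5 := hpq (0, y) (16 * G, y') (by unfold inR; simp only; omega) (by unfold inR; simp only; omega) h4
    have h6 : 256 * G ^ 2 ≤ dsq (0, y) (16 * G, y') := by
      unfold dsq
      simp only
      nlinarith [sq_nonneg (y - y')]
    exact h6.trans h5
  refine ⟨?_, p, q, hp, hq, hlarge⟩
  have hGpos : 0 < G := by omega
  have hne : p ≠ q := by
    rintro rfl
    unfold dsq at hlarge
    nlinarith
  have hbox : ∀ w, Reach (↑F : Set Edg) v w → inR 0 n 0 n w := by
    intro w hw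
    by_cases h : w = p
    · exact inR_of_reach hF (hw.symm.trans hq) (by rw [h]; exact hne)
    · exact inR_of_reach hF (hw.symm.trans hp) h
  -- vertical extent
  have hy : ∀ w w', Reach (↑F : Set Edg) v w → Reach (↑F : Set Edg) v w' → w'.2 - w.2 ≤ 11 * G := by
    intro w w' hw hw'
    by_contra hcon
    push Not at hcon
    have b1 := hbox w hw
    have b2 := hbox w' hw'
    unfold inR at b1 b2
    obtain ⟨j, hj1, hj2, hj3⟩ : ∃ j : ℕ, 1 ≤ j ∧ w.2 ≤ 10 * G * j ∧ 10 * G * j ≤ w.2 + 10 * G := by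
      refine ⟨(w.2 / (10 * G)).toNat + 1, by omega, ?_, ?_⟩
      · have h1 : 0 ≤ w.2 / (10 * G) := Int.ediv_nonneg b1.2.1 (by omega)
        have h2 : (((w.2 / (10 * G)).toNat + 1 : ℕ) : ℤ) = w.2 / (10 * G) + 1 := by
          push_cast; rw [Int.toNat_of_nonneg h1]
        rw [h2]
        have h3 := Int.lt_mul_ediv_self_add (x := w.2) (k := 10 * G) (by omega)
        nlinarith
      · have h1 : 0 ≤ w.2 / (10 * G) := Int.ediv_nonneg b1.2.1 (by omega)
        have h2 : (((w.2 / (10 * G)).toNat + 1 : ℕ) : ℤ) = w.2 / (10 * G) + 1 := by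
          push_cast; rw [Int.toNat_of_nonneg h1]
        rw [h2]
        have h3 := Int.mul_ediv_self_le (x := w.2) (k := 10 * G) (by omega)
        nlinarith
    exact B3 j hj1 (by omega) (TBc_of_path hF (by omega) (hw.symm.trans hw') hj2 (by omega))
  -- horizontal extent
  have hx : ∀ w w', Reach (↑F : Set Edg) v w → Reach (↑F : Set Edg) v w' → 11 * G < w'.1 - w.1 →
      w.1 ≤ 10 * G ∧ 11 * G + 1 ≤ w'.1 := by
    intro w w' hw hw' hlt
    have b1 := hbox w hw
    have b2 := hbox w' hw'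
    unfold inR at b1 b2
    refine ⟨?_, by omega⟩
    by_contra hcon
    push Not at hcon
    have h1 : 0 ≤ w.1 / (10 * G) := Int.ediv_nonneg b1.1.1 (by omega)
    have h3 := Int.lt_mul_ediv_self_add (x := w.1) (k := 10 * G) (by omega)
    have h4 := Int.mul_ediv_self_le (x := w.1) (k := 10 * G) (by omega)
    have h5 : 1 ≤ w.1 / (10 * G) := by
      by_contra h6
      have h7 : w.1 / (10 * G) = 0 := by omega
      rw [h7] at h3
      omega
    obtain ⟨i, hi⟩ : ∃ i : ℕ, (i : ℤ) = w.1 / (10 * G) + 1 :=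
      ⟨(w.1 / (10 * G)).toNat + 1, by push_cast; rw [Int.toNat_of_nonneg h1]⟩
    have hi2 : 2 ≤ i := by omega
    have hj2 : w.1 ≤ 10 * G * i := by rw [hi]; nlinarith
    have hj3 : 10 * G * i ≤ w.1 + 10 * G := by rw [hi]; nlinarith
    exact B2 i hi2 (by omega) (LRc_of_path hF (by omega) (hw.symm.trans hw') hj2 (by omega))
  -- one of the two directions is long
  obtain ⟨u, w, hu, hw, hu1, hw1⟩ : ∃ u w, Reach (↑F : Set Edg) v u ∧ Reach (↑F : Set Edg) v w ∧
      u.1 ≤ 10 * G ∧ 11 * G + 1 ≤ w.1 := by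
    rcases lt_or_ge (11 * G) (q.1 - p.1) with h1 | h1
    · obtain ⟨h2, h3⟩ := hx p q hp hq h1
      exact ⟨p, q, hp, hq, h2, h3⟩
    rcases lt_or_ge (11 * G) (p.1 - q.1) with h2 | h2
    · obtain ⟨h3, h4⟩ := hx q p hq hp h2
      exact ⟨q, p, hq, hp, h3, h4⟩
    exfalso
    have h3 := hy p q hp hq
    have h4 := hy q p hq hp
    have h5 : (p.1 - q.1) ^ 2 ≤ (11 * G) ^ 2 := sq_le_sq' (by omega) (by omega)
    have h6 : (p.2 - q.2) ^ 2 ≤ (11 * G) ^ 2 := sq_le_sq' (by omega) (by omega)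
    unfold dsq at hlarge
    nlinarith
  obtain ⟨z, hz, hz1, hz2, hz3⟩ := exists_low hF (by omega) hu hw hu1 hw1 B1
  have hzb := hbox z hz
  unfold inR at hzb
  intro w' hw'
  exact inside hF (X := 16 * G + 2 * a) (a := a) (Y := 2 * a) (X0 := 16 * G + a) (by omega) (by omega)
    (by omega) (by omega) (by omega) (by omega) B4 B5 (z := z) (by omega) (by omega) (by omega) hz3 w'
    (hz.symm.trans hw')

end Pool.Agent.W2helper95.LT78
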